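import Pool.Agent.Helper51.REC.Goals2
import Pool.Agent.Helper42.PP.NZY
import Pool.Agent.Helper42.PP.SMF
import Pool.Agent.Helper42.RS.RAM

/-!
# Project REC (MP_fc6b1e_nt), packet D_NRM: norms in a Galois extension
-/

set_option autoImplicit false

namespace Pool.Agent.Helper59.REC

open NumberField Module IsDedekindDomain Pool.Agent.Helper51.RP Pool.Agent.Helper42.PP
open Pool.Agent.Helper51.REC
open Pool.Agent.Helper42.RD (ordv_eq_zero_iff)
open Pool.Agent.Helper40.RS (bel gw bel_smul lies val_smul efg)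
open Pool.Agent.Helper40.RD (bel_of_above ordW valW)
open scoped Pointwise

section

variable {F E : Type} [Field F] [NumberField F] [Field E] [NumberField E] [Algebra F E]

theorem notMem_upS {S : Set (HeightOneSpectrum (𝓞 F))} {w : HeightOneSpectrum (𝓞 E)}
    (h : bel F w ∉ S) : w ∉ upS E S := by
  rintro ⟨v, hv, h'⟩
  rw [bel_of_above h'] at h
  exact h hv

theorem mem_upS {S : Set (HeightOneSpectrum (𝓞 F))} {w : HeightOneSpectrum (𝓞 E)}
    (h : bel F w ∈ S) : w ∈ upS E S := ⟨bel F w, h, rfl⟩

theorem ram_ne (w : HeightOneSpectrum (𝓞 E)) :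
    (bel F w).asIdeal.ramificationIdx' w.asIdeal ≠ 0 :=
  Ideal.IsDedekindDomain.ramificationIdx'_ne_zero_of_liesOver w.asIdeal (bel F w).ne_bot

variable [IsGalois F E]

/-- pull back of `w` under `g` -/
theorem pull_val (w : HeightOneSpectrum (𝓞 E)) (g : E ≃ₐ[F] E) (y : E) :
    w.valuation E (g y) = (gw g⁻¹ w).valuation E y := by
  have h1 : ∀ y : E, (gw g⁻¹ w).valuation E (g⁻¹ y) = w.valuation E y :=
    fun y => val_smul g⁻¹ w (gw g⁻¹ w) rfl y
  have h2 := h1 (g y)
  have h3 : g⁻¹ (g y) = y := by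
    show (g⁻¹ * g) y = y
    rw [inv_mul_cancel]; rfl
  rw [h3] at h2
  exact h2.symm

theorem pull_bel (w : HeightOneSpectrum (𝓞 E)) (g : E ≃ₐ[F] E) :
    bel F (gw g⁻¹ w) = bel F w := bel_smul g⁻¹ w (gw g⁻¹ w) rfl

theorem norm_prod (a : Eˣ) :
    algebraMap F E ((nrm F E a : Fˣ) : F) = ∏ g : E ≃ₐ[F] E, g (a : E) :=
  Algebra.norm_eq_prod_automorphisms F (a : E)

theorem ord_sum (a : Eˣ) (w : HeightOneSpectrum (𝓞 E)) :
    ((bel F w).asIdeal.ramificationIdx' w.asIdeal : ℤ) *
      ordv (bel F w) ((nrm F E a : Fˣ) : F) = ∑ g : E ≃ₐ[F] E, ordv (gw g⁻¹ w) (a : E) := by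
  rw [← ordW, norm_prod, ordv_prod]
  · refine Finset.sum_congr rfl fun g _ => ?_
    exact ordv_of_val (fun y => pull_val w g y) _
  · intro g _
    exact (map_ne_zero g).2 a.ne_zero

/-- the number of the `g` which fix `w` -/
theorem card_fix (w : HeightOneSpectrum (𝓞 E)) :
    Nat.card {g : E ≃ₐ[F] E // gw g⁻¹ w = w} =
      (bel F w).asIdeal.ramificationIdx' w.asIdeal * w.asIdeal.inertiaDeg (𝓞 F) := by
  have hfin : Finite ((bel F w).asIdeal.ResidueField) := inferInstance
  have h1 := Ideal.card_stabilizer_eq (G := E ≃ₐ[F] E) (bel F w).asIdeal w.asIdeal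
  rw [Ideal.ramificationIdxIn_eq_ramificationIdx (bel F w).asIdeal w.asIdeal (E ≃ₐ[F] E),
    Ideal.inertiaDegIn_eq_inertiaDeg (bel F w).asIdeal w.asIdeal (E ≃ₐ[F] E)] at h1
  rw [Ideal.ramificationIdx'_eq_ramificationIdx _ _ (bel F w).ne_bot, ← h1]
  refine Nat.card_congr (Equiv.subtypeEquivRight fun g => ?_)
  rw [MulAction.mem_stabilizer_iff]
  constructor
  · intro h
    have h2 : g⁻¹ • w.asIdeal = w.asIdeal := congrArg HeightOneSpectrum.asIdeal h
    conv_lhs => rw [← h2]
    rw [smul_inv_smul]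
  · intro h
    apply HeightOneSpectrum.ext
    show g⁻¹ • w.asIdeal = w.asIdeal
    conv_lhs => rw [← h]
    rw [inv_smul_smul]

end

theorem mul_close {M : Type} [Field M] [NumberField M] (w : HeightOneSpectrum (𝓞 M))
    (c : WithZero (Multiplicative ℤ)) {x y : M}
    (hx : w.valuation M (x - 1) < 1 ∧ w.valuation M (x - 1) ≤ c)
    (hy : w.valuation M (y - 1) < 1 ∧ w.valuation M (y - 1) ≤ c) :
    w.valuation M (x * y - 1) < 1 ∧ w.valuation M (x * y - 1) ≤ c := by
  refine ⟨Pool.Agent.Helper42.RD.val_mul_sub w hx.1 hy.1, ?_⟩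
  have e : x * y - 1 = (x - 1) * y + (y - 1) := by ring
  rw [e]
  refine Valuation.map_add_le _ ?_ hy.2
  rw [map_mul, Pool.Agent.Helper42.RD.val_eq_one_of_sub w hy.1, mul_one]
  exact hx.2

theorem prod_close {M ι : Type} [Field M] [NumberField M] (w : HeightOneSpectrum (𝓞 M))
    (c : WithZero (Multiplicative ℤ)) (s : Finset ι) (f : ι → M)
    (h : ∀ i ∈ s, w.valuation M (f i - 1) < 1 ∧ w.valuation M (f i - 1) ≤ c) :
    w.valuation M (∏ i ∈ s, f i - 1) < 1 ∧ w.valuation M (∏ i ∈ s, f i - 1) ≤ c := by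
  classical
  induction s using Finset.induction_on with
  | empty =>
    rw [Finset.prod_empty, sub_self, map_zero]
    exact ⟨zero_lt_one, zero_le⟩
  | insert a s ha ih =>
    rw [Finset.prod_insert ha]
    exact mul_close w c (h a (Finset.mem_insert_self a s))
      (ih fun i hi => h i (Finset.mem_insert_of_mem hi))

theorem d_nrm : D_NRM := by
  classical
  intro p hp F E _ _ _ _ _ _ S hS
  refine ⟨?_, ?_, ?_⟩
  · intro u hu
    rw [mem_unit_iff] at hu ⊢
    intro v hv
    obtain ⟨w, hw⟩ := Pool.Agent.Helper42.RS.exists_above (H := E) v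
    have hb : bel F w = v := HeightOneSpectrum.ext hw.over.symm
    have h1 := ord_sum (F := F) u w
    rw [Finset.sum_eq_zero, mul_eq_zero, hb] at h1
    · rcases h1 with h1 | h1
      · exact absurd (Int.natCast_eq_zero.1 h1) (hb ▸ ram_ne w)
      · exact h1
    · intro g _
      apply hu
      apply notMem_upS
      rw [pull_bel, hb]
      exact hv
  · rintro β ⟨y, hy⟩
    refine ⟨nrm F E y, ?_⟩
    intro v hv
    obtain ⟨w, hw⟩ := Pool.Agent.Helper42.RS.exists_above (H := E) v
    have hb : bel F w = v := HeightOneSpectrum.ext hw.over.symm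
    have h1 : algebraMap F E (((nrm F E β : Fˣ) : F) * ((nrm F E y : Fˣ) : F) ^ p - 1) =
        ∏ g : E ≃ₐ[F] E, g ((β : E) * (y : E) ^ p) - 1 := by
      rw [map_sub, map_mul, map_pow, map_one, norm_prod, norm_prod, ← Finset.prod_pow,
        ← Finset.prod_mul_distrib]
      congr 1
      refine Finset.prod_congr rfl fun g _ => ?_
      rw [map_mul, map_pow]
    have h2 := prod_close w (w.valuation E (p : E) ^ 3) Finset.univ
      (fun g : E ≃ₐ[F] E => g ((β : E) * (y : E) ^ p)) (by
        intro g _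
        have h3 : g ((β : E) * (y : E) ^ p) - 1 = g ((β : E) * (y : E) ^ p - 1) := by
          rw [map_sub, map_one]
        have h4 : w.valuation E (p : E) = (gw g⁻¹ w).valuation E (p : E) := by
          rw [← pull_val w g, map_natCast g]
        rw [h3, pull_val, h4]
        apply hy
        apply mem_upS
        rw [pull_bel, hb]
        exact hv)
    rw [← h1, valW, hb] at h2
    have h5 : w.valuation E (p : E) =
        v.valuation F (p : F) ^ v.asIdeal.ramificationIdx' w.asIdeal := by
      have := valW (M := F) w (p : F)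
      rw [map_natCast, hb] at this
      exact this
    rw [h5, pow_right_comm] at h2
    have he : v.asIdeal.ramificationIdx' w.asIdeal ≠ 0 := by
      have := ram_ne (F := F) w
      rwa [hb] at this
    refine ⟨?_, ?_⟩
    · exact (pow_lt_one_iff_of_nonneg zero_le he).1 h2.1
    · exact (pow_le_pow_iff_left₀ zero_le zero_le he).1 h2.2
  · intro a w hdiv W f hW hN
    obtain ⟨hw, ha, ha'⟩ := hdiv
    have hb : bel F w = W := bel_of_above hW
    have hWS : W ∉ S := fun h => hw ⟨W, h, hW⟩
    refine ⟨hWS, ?_, ?_⟩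
    · have h1 := ord_sum (F := F) a w
      have h2 : ∑ g : E ≃ₐ[F] E, ordv (gw g⁻¹ w) (a : E) =
          ∑ g : E ≃ₐ[F] E, if gw g⁻¹ w = w then (1 : ℤ) else 0 := by
        refine Finset.sum_congr rfl fun g _ => ?_
        split_ifs with h
        · rw [h, ha]
        · apply ha' _ _ h
          apply notMem_upS
          rw [pull_bel, hb]
          exact hWS
      rw [h2, Finset.sum_boole, ← Fintype.card_subtype, ← Nat.card_eq_fintype_card,
        card_fix, hb] at h1
      have he : W.asIdeal.ramificationIdx' w.asIdeal ≠ 0 := by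
        have := ram_ne (F := F) w
        rwa [hb] at this
      push_cast at h1
      have h3 : ordv W ((nrm F E a : Fˣ) : F) = (w.asIdeal.inertiaDeg (𝓞 F) : ℤ) :=
        mul_left_cancel₀ (Int.natCast_ne_zero.2 he) h1
      rw [h3]
      have h4 := Ideal.absNorm_pow_inertiaDeg (bel F w).asIdeal w.asIdeal
      rw [hb, hN] at h4
      have h5 : 1 < Ideal.absNorm W.asIdeal := by
        have h6 : Ideal.absNorm W.asIdeal ≠ 1 := by
          rw [Ne, Ideal.absNorm_eq_one_iff]
          exact W.isPrime.ne_top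
        have h7 : Ideal.absNorm W.asIdeal ≠ 0 := by
          rw [Ne, Ideal.absNorm_eq_zero_iff]
          exact W.ne_bot
        omega
      rw [Nat.pow_right_injective h5 h4]
    · intro W' hW' hne
      obtain ⟨w', hw'⟩ := Pool.Agent.Helper42.RS.exists_above (H := E) W'
      have hb' : bel F w' = W' := HeightOneSpectrum.ext hw'.over.symm
      have h1 := ord_sum (F := F) a w'
      rw [Finset.sum_eq_zero, mul_eq_zero, hb'] at h1
      · rcases h1 with h1 | h1
        · exact absurd (Int.natCast_eq_zero.1 h1) (hb' ▸ ram_ne w')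
        · exact h1
      · intro g _
        apply ha'
        · apply notMem_upS
          rw [pull_bel, hb']
          exact hW'
        · intro h
          apply hne
          rw [← hb', ← pull_bel w' g, h, hb]

end Pool.Agent.Helper59.REC
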